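import Mathlib

/-!
# Elementary inequalities for sine and cosine
-/

open Real Set

namespace Q68.EE

lemma cos_add_mul_sin_pos {c u : ℝ} (hu : |u| ≤ 1 / 2) (hcu : |c * u| ≤ 1 / 2) :
    0 < cos u + c * sin u := by
  have h1 := one_sub_sq_div_two_le_cos (x := u)
  have h2 : u ^ 2 ≤ (1 / 2) ^ 2 := by
    rw [← sq_abs u]; exact pow_le_pow_left₀ (abs_nonneg _) hu 2
  have h3 : |c * sin u| ≤ 1 / 2 := by
    refine le_trans ?_ hcu
    rw [abs_mul, abs_mul]
    exact mul_le_mul_of_nonneg_left (abs_sin_le_abs) (abs_nonneg _)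
  have := (abs_le.1 h3).1
  nlinarith

lemma exp_neg_mul_lt_one (c : ℝ) {u : ℝ} (hu : 0 < u) (hu' : u ≤ π) :
    exp (-(c * u)) * (cos u + c * sin u) < 1 := by
  have hd : ∀ x : ℝ, HasDerivAt (fun x => exp (-(c * x)) * (cos x + c * sin x))
      (-(exp (-(c * x)) * (1 + c ^ 2) * sin x)) x := by
    intro x
    have h1 : HasDerivAt (fun x => exp (-(c * x))) (exp (-(c * x)) * (-(c * 1))) x :=
      (((hasDerivAt_id x).const_mul c).neg).exp
    have h2 : HasDerivAt (fun x => cos x + c * sin x) (-sin x + c * cos x) x :=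
      (hasDerivAt_cos x).add ((hasDerivAt_sin x).const_mul c)
    refine (h1.mul h2).congr_deriv ?_
    ring
  have hanti : StrictAntiOn (fun x => exp (-(c * x)) * (cos x + c * sin x)) (Icc 0 π) := by
    refine strictAntiOn_of_deriv_neg (convex_Icc 0 π)
      (fun x _ => (hd x).continuousAt.continuousWithinAt) ?_
    intro x hx
    rw [interior_Icc] at hx
    rw [(hd x).deriv]
    have := sin_pos_of_pos_of_lt_pi hx.1 hx.2
    have h3 : 0 < exp (-(c * x)) * (1 + c ^ 2) * sin x := by positivity
    linarith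
  have := hanti (left_mem_Icc.2 pi_pos.le) ⟨hu.le, hu'⟩ hu
  simpa using this

lemma cos_add_mul_sin_lt {c u : ℝ} (hu : u ≠ 0) (hu' : |u| ≤ π) :
    cos u + c * sin u < exp (c * u) := by
  have key : ∀ (c : ℝ) {u : ℝ}, 0 < u → u ≤ π → cos u + c * sin u < exp (c * u) := by
    intro c u h1 h2
    have h := exp_neg_mul_lt_one c h1 h2
    have h3 : exp (c * u) * (exp (-(c * u)) * (cos u + c * sin u)) < exp (c * u) * 1 :=
      mul_lt_mul_of_pos_left h (exp_pos _)
    rw [← mul_assoc, ← exp_add] at h3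
    simpa using h3
  rcases lt_or_gt_of_ne hu with h | h
  · have := key (-c) (u := -u) (by linarith) (by rw [abs_of_neg h] at hu'; exact hu')
    simpa using this
  · exact key c h (by rwa [abs_of_pos h] at hu')

lemma cos_add_mul_sin_le {c u : ℝ} (hu' : |u| ≤ π) :
    cos u + c * sin u ≤ exp (c * u) := by
  by_cases h : u = 0
  · simp [h]
  · exact (cos_add_mul_sin_lt h hu').le

/-- The one step change of `sin X * sin Y`. -/
lemma abs_sin_mul_sin_lt {X Y : ℝ} (hX : sin X ≠ 0) (hY : sin Y ≠ 0)
    (h : cos X ≠ 0 ∨ cos Y ≠ 0) :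
    |sin (X + 1 / 2 * (sin X * cos Y)) * sin (Y - 1 / 2 * (cos X * sin Y))| <
      |sin X * sin Y| := by
  set u := 1 / 2 * (sin X * cos Y) with hu
  set w := -(1 / 2 * (cos X * sin Y)) with hw
  have bu : |u| ≤ 1 / 2 := by
    rw [hu, abs_mul, abs_mul]
    have := abs_sin_le_one X; have := abs_cos_le_one Y
    have h1 := abs_nonneg (sin X); have h2 := abs_nonneg (cos Y)
    have : |sin X| * |cos Y| ≤ 1 := by nlinarith
    norm_num
    linarith
  have bw : |w| ≤ 1 / 2 := by
    rw [hw, abs_neg, abs_mul, abs_mul]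
    have := abs_sin_le_one Y; have := abs_cos_le_one X
    have h1 := abs_nonneg (sin Y); have h2 := abs_nonneg (cos X)
    have : |cos X| * |sin Y| ≤ 1 := by nlinarith
    norm_num
    linarith
  have hpi : (1 : ℝ) / 2 ≤ π := by linarith [pi_gt_three]
  set a := cos X / sin X with ha
  set b := cos Y / sin Y with hb
  have hau : a * u = 1 / 2 * (cos X * cos Y) := by
    rw [ha, hu]; field_simp
  have hbw : b * w = -(1 / 2 * (cos X * cos Y)) := by
    rw [hb, hw]; field_simp
  have hcc : |cos X| * |cos Y| ≤ 1 := by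
    have := abs_cos_le_one X; have := abs_cos_le_one Y
    have h1 := abs_nonneg (cos X); have h2 := abs_nonneg (cos Y)
    nlinarith
  have bau : |a * u| ≤ 1 / 2 := by
    rw [hau, abs_mul, abs_mul]; norm_num; linarith
  have bbw : |b * w| ≤ 1 / 2 := by
    rw [hbw, abs_neg, abs_mul, abs_mul]; norm_num; linarith
  have e1 : sin (X + u) = sin X * (cos u + a * sin u) := by
    rw [sin_add, ha]; field_simp
  have e2 : sin (Y + w) = sin Y * (cos w + b * sin w) := by
    rw [sin_add, hb]; field_simp
  have e3 : Y - 1 / 2 * (cos X * sin Y) = Y + w := by rw [hw]; ring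
  rw [e3, e1, e2]
  have pA := cos_add_mul_sin_pos bu bau
  have pB := cos_add_mul_sin_pos bw bbw
  have lA := cos_add_mul_sin_le (c := a) (bu.trans hpi)
  have lB := cos_add_mul_sin_le (c := b) (bw.trans hpi)
  have hprod : exp (a * u) * exp (b * w) = 1 := by
    rw [← exp_add, hau, hbw]; simp
  have hAB : (cos u + a * sin u) * (cos w + b * sin w) < 1 := by
    rw [← hprod]
    rcases h with h | h
    · have hw0 : w ≠ 0 := by
        rw [hw]; simp [h, hY]
      have := cos_add_mul_sin_lt (c := b) hw0 (bw.trans hpi)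
      exact mul_lt_mul' lA this pB.le (exp_pos _)
    · have hu0 : u ≠ 0 := by
        rw [hu]; simp [h, hX]
      have := cos_add_mul_sin_lt (c := a) hu0 (bu.trans hpi)
      exact mul_lt_mul_of_lt_of_le_of_pos_of_nonneg this lB pB (exp_pos _).le
  have e4 : sin X * (cos u + a * sin u) * (sin Y * (cos w + b * sin w)) =
      (sin X * sin Y) * ((cos u + a * sin u) * (cos w + b * sin w)) := by ring
  rw [e4, abs_mul, abs_of_pos (mul_pos pA pB)]
  have : 0 < |sin X * sin Y| := abs_pos.2 (mul_ne_zero hX hY)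
  nlinarith

/-- The one step change of `sin`. -/
lemma sin_step_ne_zero {X c : ℝ} (hc : |c| ≤ 1) (hX : sin X ≠ 0) :
    sin (X + 1 / 2 * (sin X * c)) ≠ 0 := by
  set u := 1 / 2 * (sin X * c) with hu
  have bu : |u| ≤ 1 / 2 := by
    rw [hu, abs_mul, abs_mul]
    have := abs_sin_le_one X
    have h1 := abs_nonneg (sin X); have h2 := abs_nonneg c
    have : |sin X| * |c| ≤ 1 := by nlinarith
    norm_num
    linarith
  set a := cos X / sin X with ha
  have hau : a * u = 1 / 2 * (cos X * c) := by
    rw [ha, hu]; field_simp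
  have bau : |a * u| ≤ 1 / 2 := by
    have : |cos X| * |c| ≤ 1 := by
      have := abs_cos_le_one X
      have h1 := abs_nonneg (cos X); have h2 := abs_nonneg c
      nlinarith
    rw [hau, abs_mul, abs_mul]; norm_num; linarith
  have e1 : sin (X + u) = sin X * (cos u + a * sin u) := by
    rw [sin_add, ha]; field_simp
  rw [e1]
  exact mul_ne_zero hX (cos_add_mul_sin_pos bu bau).ne'

/-- Motion along the separatrices. -/
lemma cos_step_lt {X s : ℝ} (hs : s = 1 ∨ s = -1) (hX : sin X ≠ 0) :
    s * cos (X + 1 / 2 * (sin X * s)) < s * cos X := by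
  set d := 1 / 2 * (sin X * s) with hd
  have hs2 : s * s = 1 := by rcases hs with h | h <;> rw [h] <;> norm_num
  have hsX : sin X = 2 * (d * s) := by
    rw [hd]; linear_combination (-sin X) * hs2
  have hd0 : d ≠ 0 := by
    intro h; apply hX; rw [hsX, h]; ring
  have hd1 : |d| ≤ 1 / 2 := by
    have hs1 : |s| = 1 := by rcases hs with h | h <;> rw [h] <;> norm_num
    rw [hd, abs_mul, abs_mul, hs1, mul_one]
    have := abs_sin_le_one X
    norm_num
    linarith
  -- `s * cos X - s * cos (X + d) = s cos X (1 - cos d) + s sin X sin d`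
  have e1 : s * cos X - s * cos (X + d) = s * cos X * (1 - cos d) + 2 * (d * sin d) := by
    rw [cos_add]
    have : s * (sin X * sin d) = 2 * (d * sin d) := by
      rw [hsX]; linear_combination (2 * d * sin d) * hs2
    linear_combination this
  have e2 : |s * cos X * (1 - cos d)| ≤ d ^ 2 / 2 := by
    have hs1 : |s| = 1 := by rcases hs with h | h <;> rw [h] <;> norm_num
    rw [abs_mul, abs_mul, hs1, one_mul]
    have h1 := one_sub_sq_div_two_le_cos (x := d)
    have h2 : 0 ≤ 1 - cos d := by linarith [cos_le_one d]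
    rw [abs_of_nonneg h2]
    have h3 := abs_cos_le_one X
    have h4 := abs_nonneg (cos X)
    nlinarith
  have e3 : d ^ 2 / 2 < 2 * (d * sin d) := by
    have h5 : (1 : ℝ) / 2 < 2 / π := by
      rw [div_lt_div_iff₀ (by norm_num) pi_pos]; linarith [pi_lt_four]
    have h6 : d * sin d = |d| * sin |d| := by
      rcases abs_cases d with h | h
      · rw [h.1]
      · rw [h.1, sin_neg]; ring
    have h7 : 2 / π * |d| ≤ sin |d| := mul_le_sin (abs_nonneg _) (by
      have := pi_gt_three; linarith)
    have h8 : 0 < |d| := abs_pos.2 hd0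
    rw [h6, ← sq_abs d]
    have h9 : 1 / 2 * |d| < sin |d| := lt_of_lt_of_le (mul_lt_mul_of_pos_right h5 h8) h7
    nlinarith
  have := (abs_le.1 e2).1
  linarith

end Q68.EE
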