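import Mathlib

/-!
# An analytic diffeomorphism of the plane, periodic with period `2π` in both variables

`F v = (v₀ + ½ sin v₀ cos v₁, v₁ - ½ cos v₀ sin v₁)`.
-/

open Real Set

namespace Q68.EE

/-- The Euclidean plane. -/
abbrev Plane := EuclideanSpace ℝ (Fin 2)

/-- The perturbation of the identity. -/
noncomputable def gg (v : Plane) : Plane :=
  !₂[(1 / 2) * (sin (v 0) * cos (v 1)), -((1 / 2) * (cos (v 0) * sin (v 1)))]

/-- The derivative of the perturbation. -/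
noncomputable def Gm (v : Plane) : Plane →L[ℝ] Plane :=
  LinearMap.toContinuousLinearMap
    { toFun := fun w => !₂[(1 / 2) * (cos (v 0) * cos (v 1) * w 0 - sin (v 0) * sin (v 1) * w 1),
        (1 / 2) * (sin (v 0) * sin (v 1) * w 0 - cos (v 0) * cos (v 1) * w 1)]
      map_add' := by
        intro a b; ext i; fin_cases i <;> simp <;> ring
      map_smul' := by
        intro a b; ext i; fin_cases i <;> simp <;> ring }

lemma Gm_apply (v w : Plane) : Gm v w =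
    !₂[(1 / 2) * (cos (v 0) * cos (v 1) * w 0 - sin (v 0) * sin (v 1) * w 1),
        (1 / 2) * (sin (v 0) * sin (v 1) * w 0 - cos (v 0) * cos (v 1) * w 1)] := rfl

lemma hasFDerivAt_gg (v : Plane) : HasFDerivAt gg (Gm v) v := by
  rw [← hasFDerivWithinAt_univ, hasFDerivWithinAt_euclidean]
  simp only [hasFDerivWithinAt_univ]
  have h0 : HasFDerivAt (fun w : Plane => w 0) (EuclideanSpace.proj (0 : Fin 2) : Plane →L[ℝ] ℝ) v :=
    (EuclideanSpace.proj (0 : Fin 2) : Plane →L[ℝ] ℝ).hasFDerivAt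
  have h1 : HasFDerivAt (fun w : Plane => w 1) (EuclideanSpace.proj (1 : Fin 2) : Plane →L[ℝ] ℝ) v :=
    (EuclideanSpace.proj (1 : Fin 2) : Plane →L[ℝ] ℝ).hasFDerivAt
  intro i
  fin_cases i
  · have := ((h0.sin).mul (h1.cos)).const_mul (1 / 2 : ℝ)
    simp only [gg]
    refine (this.congr_fderiv ?_)
    ext w
    simp [Gm_apply]
    ring
  · have := (((h0.cos).mul (h1.sin)).const_mul (1 / 2 : ℝ)).neg
    simp only [gg]
    refine (this.congr_fderiv ?_)
    ext w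
    simp [Gm_apply]
    ring

lemma abs_add_abs_le (a b : ℝ) : |cos a * cos b| + |sin a * sin b| ≤ 1 := by
  have h1 : |cos a * cos b + sin a * sin b| ≤ 1 := by
    rw [← cos_sub]; exact abs_cos_le_one _
  have h2 : |cos a * cos b - sin a * sin b| ≤ 1 := by
    rw [← cos_add]; exact abs_cos_le_one _
  rcases abs_cases (cos a * cos b) with h | h <;> rcases abs_cases (sin a * sin b) with h' | h' <;>
    rcases abs_le.1 h1 with ⟨h3, h4⟩ <;> rcases abs_le.1 h2 with ⟨h5, h6⟩ <;> linarith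

lemma norm_Gm_apply_le (v w : Plane) : ‖Gm v w‖ ≤ (1 / 2) * ‖w‖ := by
  have hk := abs_add_abs_le (v 0) (v 1)
  set p := cos (v 0) * cos (v 1) with hp
  set q := sin (v 0) * sin (v 1) with hq
  have hpq : (|p| + |q|) ^ 2 ≤ 1 := by
    have : 0 ≤ |p| + |q| := by positivity
    nlinarith
  have e1 : ‖Gm v w‖ ^ 2 = (1 / 4) * ((p * w 0 - q * w 1) ^ 2 + (q * w 0 - p * w 1) ^ 2) := by
    rw [Gm_apply, EuclideanSpace.norm_sq_eq]
    simp [Fin.sum_univ_two, ← hp, ← hq]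
    ring
  have e2 : ‖w‖ ^ 2 = w 0 ^ 2 + w 1 ^ 2 := by
    rw [EuclideanSpace.norm_sq_eq]
    simp [Fin.sum_univ_two]
  have e3 : -(4 * (p * q) * (w 0 * w 1)) ≤ 2 * (|p| * |q|) * (w 0 ^ 2 + w 1 ^ 2) := by
    have h1 : -((p * q) * (w 0 * w 1)) ≤ |p * q| * |w 0 * w 1| := by
      rw [← abs_mul]; exact neg_le_abs _
    have h2 : 2 * |w 0 * w 1| ≤ w 0 ^ 2 + w 1 ^ 2 := by
      rw [abs_mul]
      nlinarith [sq_nonneg (|w 0| - |w 1|), sq_abs (w 0), sq_abs (w 1)]
    rw [abs_mul] at h1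
    have h3 : 0 ≤ |p| * |q| := by positivity
    nlinarith
  have e4 : (p * w 0 - q * w 1) ^ 2 + (q * w 0 - p * w 1) ^ 2 ≤ w 0 ^ 2 + w 1 ^ 2 := by
    have e5 : (|p| + |q|) ^ 2 * (w 0 ^ 2 + w 1 ^ 2) ≤ 1 * (w 0 ^ 2 + w 1 ^ 2) :=
      mul_le_mul_of_nonneg_right hpq (by positivity)
    have e6 : (|p| + |q|) ^ 2 = p ^ 2 + q ^ 2 + 2 * (|p| * |q|) := by
      rw [add_sq, sq_abs, sq_abs]; ring
    rw [e6] at e5
    nlinarith
  have e7 : ‖Gm v w‖ ^ 2 ≤ ((1 / 2) * ‖w‖) ^ 2 := by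
    rw [e1, mul_pow, e2]; nlinarith
  exact le_of_sq_le_sq₀ e7 (by positivity)
  where
  le_of_sq_le_sq₀ {a b : ℝ} (h : a ^ 2 ≤ b ^ 2) (hb : 0 ≤ b) : a ≤ b := abs_le_of_sq_le_sq' h hb |>.2

lemma norm_Gm_le (v : Plane) : ‖Gm v‖ ≤ 1 / 2 :=
  ContinuousLinearMap.opNorm_le_bound _ (by norm_num) (norm_Gm_apply_le v)

lemma lipschitz_gg : LipschitzWith (1 / 2) gg := by
  refine lipschitzWith_of_nnnorm_fderiv_le (fun v => (hasFDerivAt_gg v).differentiableAt) fun v => ?_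
  rw [(hasFDerivAt_gg v).fderiv]
  have := norm_Gm_le v
  rw [← NNReal.coe_le_coe]
  simpa using this

/-- The diffeomorphism of the plane. -/
noncomputable def FF (v : Plane) : Plane := v + gg v

lemma approx_FF : ApproximatesLinearOn FF
    ((ContinuousLinearEquiv.refl ℝ Plane : Plane ≃L[ℝ] Plane) : Plane →L[ℝ] Plane) univ (1 / 2) := by
  intro x _ y _
  have : FF x - FF y - ((ContinuousLinearEquiv.refl ℝ Plane : Plane ≃L[ℝ] Plane) :
      Plane →L[ℝ] Plane) (x - y) = gg x - gg y := by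
    simp [FF]
    abel
  rw [this]
  have := lipschitz_gg.dist_le_mul x y
  simpa [dist_eq_norm] using this

/-- `FF` as a homeomorphism. -/
noncomputable def FFhomeo : Plane ≃ₜ Plane :=
  approx_FF.toHomeomorph FF (Or.inr (by
    have : ‖((ContinuousLinearEquiv.refl ℝ Plane).symm : Plane →L[ℝ] Plane)‖₊ = 1 := by
      rw [← NNReal.coe_inj]
      simp
    rw [this]
    norm_num))

lemma FFhomeo_apply (v : Plane) : FFhomeo v = FF v := rfl

lemma contDiff_gg : ContDiff ℝ ⊤ gg := by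
  rw [contDiff_euclidean]
  intro i
  have h0 : ContDiff ℝ ⊤ (fun w : Plane => w 0) := (EuclideanSpace.proj (0 : Fin 2) : Plane →L[ℝ] ℝ).contDiff
  have h1 : ContDiff ℝ ⊤ (fun w : Plane => w 1) := (EuclideanSpace.proj (1 : Fin 2) : Plane →L[ℝ] ℝ).contDiff
  fin_cases i
  · simp only [gg]
    exact contDiff_const.mul (h0.sin.mul h1.cos)
  · simp only [gg]
    exact (contDiff_const.mul (h0.cos.mul h1.sin)).neg

lemma contDiff_FF : ContDiff ℝ ⊤ FF := contDiff_id.add contDiff_gg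

lemma hasFDerivAt_FF (v : Plane) : HasFDerivAt FF (1 + Gm v) v :=
  (hasFDerivAt_id v).add (hasFDerivAt_gg v)

lemma norm_neg_Gm_lt (v : Plane) : ‖-(Gm v)‖ < 1 := by
  rw [norm_neg]
  exact lt_of_le_of_lt (norm_Gm_le v) (by norm_num)

lemma contDiff_FF_symm : ContDiff ℝ ⊤ FFhomeo.symm := by
  refine FFhomeo.contDiff_symm
    (f₀' := fun v => ContinuousLinearEquiv.unitsEquiv ℝ Plane
      (Units.oneSub (-(Gm v)) (norm_neg_Gm_lt v))) ?_ contDiff_FF
  intro v
  refine (hasFDerivAt_FF v).congr_fderiv ?_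
  ext w : 1
  change _ = ((Units.oneSub (-Gm v) (norm_neg_Gm_lt v) : (Plane →L[ℝ] Plane)ˣ) :
    Plane →L[ℝ] Plane) w
  simp

end Q68.EE
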