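import Mathlib

/-!
# Singular values of two explicit families of maps of the plane
-/

open Real Set

namespace Q68.EE

lemma exists_eigen (A : EuclideanSpace ℝ (Fin 2) →ₗ[ℝ] EuclideanSpace ℝ (Fin 2)) {i : ℕ}
    (hi : i < 2) : ∃ w : EuclideanSpace ℝ (Fin 2), w ≠ 0 ∧
      ∀ u, inner ℝ (A w) (A u) = A.singularValues i ^ 2 * inner ℝ w u := by
  have hfin : Module.finrank ℝ (EuclideanSpace ℝ (Fin 2)) = 2 := by simp
  have h := A.hasEigenvalue_adjoint_comp_self_sq_singularValues (n := i) (by rw [hfin]; exact hi)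
  obtain ⟨w, hw⟩ := h.exists_hasEigenvector
  refine ⟨w, hw.2, fun u => ?_⟩
  have h1 := hw.apply_eq_smul
  rw [← LinearMap.adjoint_inner_left]
  have : (LinearMap.adjoint A) (A w) = (A.singularValues i ^ 2) • w := h1
  rw [this, real_inner_smul_left]

lemma sq_sing_of_conformal (A : EuclideanSpace ℝ (Fin 2) →ₗ[ℝ] EuclideanSpace ℝ (Fin 2)) {c : ℝ}
    (hA : ∀ w, ‖A w‖ ^ 2 = c * ‖w‖ ^ 2) {i : ℕ} (hi : i < 2) :
    A.singularValues i ^ 2 = c := by
  obtain ⟨w, hw, h⟩ := exists_eigen A hi
  have h1 := h w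
  rw [real_inner_self_eq_norm_sq, real_inner_self_eq_norm_sq, hA] at h1
  have h2 : ‖w‖ ^ 2 ≠ 0 := by
    have := norm_ne_zero_iff.2 hw
    positivity
  exact (mul_right_cancel₀ h2 h1).symm

lemma prod_sing (A : EuclideanSpace ℝ (Fin 2) →ₗ[ℝ] EuclideanSpace ℝ (Fin 2)) :
    A.singularValues 0 * A.singularValues 1 = |LinearMap.det A| := by
  have h1 := A.normDet_eq_prod_singularValues
  have h2 := A.normDet_eq_norm_det
  have hfin : Module.finrank ℝ (EuclideanSpace ℝ (Fin 2)) = 2 := by simp
  rw [hfin, Finset.prod_range_succ, Finset.prod_range_one] at h1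
  rw [← h1, h2]
  rfl

lemma sum_sing_of_diag (A : EuclideanSpace ℝ (Fin 2) →ₗ[ℝ] EuclideanSpace ℝ (Fin 2)) {α β : ℝ}
    (hα : 0 < α) (hβ : 0 < β) (hA : ∀ w, A w = !₂[α * w 0, β * w 1]) (f : ℝ → ℝ) :
    f (A.singularValues 0) + f (A.singularValues 1) = f α + f β := by
  have hdet : LinearMap.det A = α * β := by
    rw [← LinearMap.det_toMatrix (EuclideanSpace.basisFun (Fin 2) ℝ).toBasis, Matrix.det_fin_two]
    simp [LinearMap.toMatrix_apply, hA]
  have hprod := prod_sing A
  rw [hdet, abs_of_pos (mul_pos hα hβ)] at hprod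
  have key : ∀ i < 2, A.singularValues i = α ∨ A.singularValues i = β := by
    intro i hi
    obtain ⟨w, hw, h⟩ := exists_eigen A hi
    have h0 := h (EuclideanSpace.single 0 1)
    have h1 := h (EuclideanSpace.single 1 1)
    rw [hA w, hA] at h0 h1
    simp [PiLp.inner_apply, Fin.sum_univ_two] at h0 h1
    have hn := A.singularValues_nonneg i
    by_cases hw0 : w 0 = 0
    · have hw1 : w 1 ≠ 0 := by
        intro hw1
        apply hw
        ext j
        fin_cases j
        · simpa using hw0
        · simpa using hw1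
      right
      have : A.singularValues i ^ 2 = β ^ 2 := by
        have : (A.singularValues i ^ 2 - β ^ 2) * w 1 = 0 := by linear_combination -h1
        rcases mul_eq_zero.1 this with h | h
        · linarith
        · exact absurd h hw1
      exact (sq_eq_sq₀ hn hβ.le).1 this
    · left
      have : A.singularValues i ^ 2 = α ^ 2 := by
        have : (A.singularValues i ^ 2 - α ^ 2) * w 0 = 0 := by linear_combination -h0
        rcases mul_eq_zero.1 this with h | h
        · linarith
        · exact absurd h hw0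
      exact (sq_eq_sq₀ hn hα.le).1 this
  rcases key 0 (by norm_num) with h | h
  · rw [h] at hprod
    rw [h, mul_left_cancel₀ hα.ne' hprod]
  · rw [h] at hprod
    have : A.singularValues 1 = α := by
      have h3 : β * A.singularValues 1 = β * α := by rw [hprod]; ring
      exact mul_left_cancel₀ hβ.ne' h3
    rw [h, this, add_comm]

end Q68.EE
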