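import Mathlib
import Pool.Agent.Q68.EE.Plane
import Pool.Agent.Q68.EE.Ineq

/-!
# The induced homeomorphism of the torus and its invariant measures
-/

open Real Set MeasureTheory

namespace Q68.EE

instance factTwoPi : Fact (0 < 2 * π) := ⟨by positivity⟩

/-- The circle `ℝ / 2πℤ`. -/
abbrev Circ := AddCircle (2 * π)

/-- sine on the circle -/
noncomputable def sC (x : Circ) : ℝ := Real.sin_periodic.lift x

/-- cosine on the circle -/
noncomputable def cC (x : Circ) : ℝ := Real.cos_periodic.lift x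

@[simp] lemma sC_coe (x : ℝ) : sC (x : Circ) = sin x := Function.Periodic.lift_coe _ _
@[simp] lemma cC_coe (x : ℝ) : cC (x : Circ) = cos x := Function.Periodic.lift_coe _ _

lemma continuous_sC : Continuous sC :=
  continuous_quot_lift _ continuous_sin

lemma continuous_cC : Continuous cC :=
  continuous_quot_lift _ continuous_cos

/-- The covering map. -/
noncomputable def prj (v : Plane) : Circ × Circ := (((v 0 : ℝ) : Circ), ((v 1 : ℝ) : Circ))

lemma prj_surjective : Function.Surjective prj := by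
  rintro ⟨x, y⟩
  obtain ⟨a, rfl⟩ := QuotientAddGroup.mk_surjective x
  obtain ⟨b, rfl⟩ := QuotientAddGroup.mk_surjective y
  exact ⟨!₂[a, b], by simp [prj]⟩

/-- The torus map. -/
noncomputable def fT (p : Circ × Circ) : Circ × Circ :=
  (p.1 + ((1 / 2 * (sC p.1 * cC p.2) : ℝ) : Circ), p.2 + ((-(1 / 2 * (cC p.1 * sC p.2)) : ℝ) : Circ))

lemma continuous_fT : Continuous fT := by
  have h1 : Continuous fun p : Circ × Circ => sC p.1 := continuous_sC.comp continuous_fst
  have h2 : Continuous fun p : Circ × Circ => sC p.2 := continuous_sC.comp continuous_snd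
  have h3 : Continuous fun p : Circ × Circ => cC p.1 := continuous_cC.comp continuous_fst
  have h4 : Continuous fun p : Circ × Circ => cC p.2 := continuous_cC.comp continuous_snd
  refine Continuous.prodMk ?_ ?_
  · exact continuous_fst.add ((AddCircle.continuous_mk' _).comp (continuous_const.mul (h1.mul h4)))
  · exact continuous_snd.add
      ((AddCircle.continuous_mk' _).comp (continuous_const.mul (h3.mul h2)).neg)

lemma fT_prj (v : Plane) : fT (prj v) = prj (FF v) := by
  simp only [fT, prj, sC_coe, cC_coe, FF, gg, PiLp.add_apply]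
  simp

lemma coe_eq_iff' {a b : ℝ} (h : ((a : ℝ) : Circ) = (b : Circ)) : ∃ m : ℤ, b = a + m * (2 * π) := by
  have h1 : ((b - a : ℝ) : Circ) = 0 := by
    rw [AddCircle.coe_sub, h, sub_self]
  obtain ⟨n, hn⟩ := (AddCircle.coe_eq_zero_iff (2 * π)).1 h1
  refine ⟨n, ?_⟩
  rw [zsmul_eq_mul] at hn
  linarith

lemma exists_of_prj_eq {v w : Plane} (h : prj v = prj w) : ∃ m n : ℤ,
    w = v + !₂[(m : ℝ) * (2 * π), (n : ℝ) * (2 * π)] := by
  obtain ⟨m, hm⟩ := coe_eq_iff' (congrArg Prod.fst h)
  obtain ⟨n, hn⟩ := coe_eq_iff' (congrArg Prod.snd h)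
  refine ⟨m, n, ?_⟩
  ext i
  fin_cases i
  · simpa using hm
  · simpa using hn

lemma prj_add (v : Plane) (m n : ℤ) :
    prj (v + !₂[(m : ℝ) * (2 * π), (n : ℝ) * (2 * π)]) = prj v := by
  have h : ∀ (x : ℝ) (k : ℤ), ((x + k * (2 * π) : ℝ) : Circ) = x := by
    intro x k
    have : (((k : ℝ) * (2 * π) : ℝ) : Circ) = 0 := by
      rw [AddCircle.coe_eq_zero_iff]
      exact ⟨k, by simp⟩
    rw [AddCircle.coe_add, this, add_zero]
  simp only [prj, PiLp.add_apply]
  refine Prod.ext ?_ ?_
  · exact h (v 0) m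
  · exact h (v 1) n

lemma FF_add (v : Plane) (m n : ℤ) :
    FF (v + !₂[(m : ℝ) * (2 * π), (n : ℝ) * (2 * π)]) =
      FF v + !₂[(m : ℝ) * (2 * π), (n : ℝ) * (2 * π)] := by
  have : gg (v + !₂[(m : ℝ) * (2 * π), (n : ℝ) * (2 * π)]) = gg v := by
    simp [gg, sin_add_int_mul_two_pi, cos_add_int_mul_two_pi]
  rw [FF, FF, this]
  abel

lemma fT_injective : Function.Injective fT := by
  intro p q h
  obtain ⟨v, rfl⟩ := prj_surjective p
  obtain ⟨w, rfl⟩ := prj_surjective q
  rw [fT_prj, fT_prj] at h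
  obtain ⟨m, n, hmn⟩ := exists_of_prj_eq h
  rw [← FF_add, ← FFhomeo_apply, ← FFhomeo_apply] at hmn
  have := FFhomeo.injective hmn
  rw [this, prj_add]

lemma fT_surjective : Function.Surjective fT := by
  intro p
  obtain ⟨v, rfl⟩ := prj_surjective p
  obtain ⟨w, hw⟩ := FFhomeo.surjective v
  exact ⟨prj w, by rw [fT_prj, ← FFhomeo_apply, hw]⟩

/-- The homeomorphism of the torus. -/
noncomputable def fHomeo : Circ × Circ ≃ₜ Circ × Circ :=
  Continuous.homeoOfEquivCompactToT2 (f := Equiv.ofBijective fT ⟨fT_injective, fT_surjective⟩)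
    continuous_fT

lemma fHomeo_apply (p : Circ × Circ) : fHomeo p = fT p := rfl

/-- A function which decreases along a measure preserving map is invariant almost everywhere. -/
lemma ae_eq_of_le {X : Type*} [MeasurableSpace X] {ρ : Measure X} [IsProbabilityMeasure ρ]
    {T : X → X} (hT : MeasurePreserving T ρ ρ) {g : X → ℝ} (hg : Measurable g)
    (hb : ∀ x, |g x| ≤ 1) (hle : ∀ x, g (T x) ≤ g x) : ∀ᵐ x ∂ρ, g (T x) = g x := by
  have hi : Integrable g ρ := Integrable.of_bound hg.aestronglyMeasurable 1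
    (Filter.Eventually.of_forall fun x => by simpa using hb x)
  have hi' : Integrable (fun x => g (T x)) ρ := hT.integrable_comp_of_integrable hi
  have h1 : ∫ x, g (T x) ∂ρ = ∫ x, g x ∂ρ := by
    have := integral_map (μ := ρ) hT.measurable.aemeasurable (f := g) hg.aestronglyMeasurable
    rw [← this, hT.map_eq]
  have h2 : ∫ x, (g x - g (T x)) ∂ρ = 0 := by
    rw [integral_sub hi hi', h1, sub_self]
  have h3 := (integral_eq_zero_iff_of_nonneg (fun x => sub_nonneg.2 (hle x)) (hi.sub hi')).1 h2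
  filter_upwards [h3] with x hx
  have : g x - g (T x) = 0 := hx
  linarith

lemma FF_zero (v : Plane) : FF v 0 = v 0 + 1 / 2 * (sin (v 0) * cos (v 1)) := by
  simp [FF, gg]

lemma FF_one (v : Plane) : FF v 1 = v 1 + -(1 / 2 * (cos (v 0) * sin (v 1))) := by
  simp [FF, gg]

lemma sC_one (v : Plane) : sC (fT (prj v)).1 = sin (v 0 + 1 / 2 * (sin (v 0) * cos (v 1))) := by
  rw [fT_prj, ← FF_zero]; exact sC_coe _

lemma cC_one (v : Plane) : cC (fT (prj v)).1 = cos (v 0 + 1 / 2 * (sin (v 0) * cos (v 1))) := by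
  rw [fT_prj, ← FF_zero]; exact cC_coe _

lemma sC_two (v : Plane) : sC (fT (prj v)).2 = sin (v 1 + -(1 / 2 * (cos (v 0) * sin (v 1)))) := by
  rw [fT_prj, ← FF_one]; exact sC_coe _

lemma cC_two (v : Plane) : cC (fT (prj v)).2 = cos (v 1 + -(1 / 2 * (cos (v 0) * sin (v 1)))) := by
  rw [fT_prj, ← FF_one]; exact cC_coe _

lemma sC_prj_one (v : Plane) : sC (prj v).1 = sin (v 0) := sC_coe _
lemma sC_prj_two (v : Plane) : sC (prj v).2 = sin (v 1) := sC_coe _
lemma cC_prj_one (v : Plane) : cC (prj v).1 = cos (v 0) := cC_coe _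
lemma cC_prj_two (v : Plane) : cC (prj v).2 = cos (v 1) := cC_coe _

lemma ae_fix {ρ : Measure (Circ × Circ)} [IsProbabilityMeasure ρ]
    (hρ : MeasurePreserving fT ρ ρ) : ∀ᵐ p ∂ρ, (sC p.1 = 0 ∧ sC p.2 = 0) ∨
      (cC p.1 = 0 ∧ cC p.2 = 0) := by
  have c1 : Continuous fun p : Circ × Circ => sC p.1 := continuous_sC.comp continuous_fst
  have c2 : Continuous fun p : Circ × Circ => sC p.2 := continuous_sC.comp continuous_snd
  have c3 : Continuous fun p : Circ × Circ => cC p.1 := continuous_cC.comp continuous_fst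
  have c4 : Continuous fun p : Circ × Circ => cC p.2 := continuous_cC.comp continuous_snd
  have m1 : MeasurableSet {p : Circ × Circ | sC p.1 = 0} :=
    (isClosed_eq c1 continuous_const).measurableSet
  have m2 : MeasurableSet {p : Circ × Circ | sC p.2 = 0} :=
    (isClosed_eq c2 continuous_const).measurableSet
  -- first function
  have A1 : ∀ v : Plane, sin (v 0) ≠ 0 → sin (v 1) ≠ 0 → (cos (v 0) ≠ 0 ∨ cos (v 1) ≠ 0) →
      |sC (fT (prj v)).1 * sC (fT (prj v)).2| < |sC (prj v).1 * sC (prj v).2| := by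
    intro v h1 h2 h3
    rw [sC_one, sC_two, sC_prj_one, sC_prj_two, ← sub_eq_add_neg]
    exact abs_sin_mul_sin_lt h1 h2 h3
  have A2 : ∀ v : Plane, sin (v 0) = 0 → sC (fT (prj v)).1 = 0 := by
    intro v h1
    rw [sC_one, h1]
    simp [h1]
  have A3 : ∀ v : Plane, sin (v 1) = 0 → sC (fT (prj v)).2 = 0 := by
    intro v h1
    rw [sC_two, h1]
    simp [h1]
  have e1 := ae_eq_of_le hρ (g := fun p => |sC p.1 * sC p.2|) ((c1.mul c2).abs.measurable)
    (by
      intro p
      obtain ⟨v, rfl⟩ := prj_surjective p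
      simp only [sC_prj_one, sC_prj_two, abs_mul, abs_abs]
      have := abs_sin_le_one (v 0); have := abs_sin_le_one (v 1)
      have := abs_nonneg (sin (v 0)); have := abs_nonneg (sin (v 1))
      nlinarith)
    (by
      intro p
      obtain ⟨v, rfl⟩ := prj_surjective p
      show |sC (fT (prj v)).1 * sC (fT (prj v)).2| ≤ |sC (prj v).1 * sC (prj v).2|
      by_cases h1 : sin (v 0) = 0
      · rw [A2 v h1, zero_mul, abs_zero]; exact abs_nonneg _
      by_cases h2 : sin (v 1) = 0
      · rw [A3 v h2, mul_zero, abs_zero]; exact abs_nonneg _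
      by_cases h3 : cos (v 0) ≠ 0 ∨ cos (v 1) ≠ 0
      · exact (A1 v h1 h2 h3).le
      · push Not at h3
        rw [sC_one, sC_two, sC_prj_one, sC_prj_two, h3.1, h3.2]
        simp)
  -- second function
  have B1 : ∀ v : Plane, sin (v 1) ≠ 0 → sC (fT (prj v)).2 ≠ 0 := by
    intro v h
    have := sin_step_ne_zero (c := -cos (v 0)) (by rw [abs_neg]; exact abs_cos_le_one _) h
    have e : v 1 + 1 / 2 * (sin (v 1) * -cos (v 0)) = v 1 + -(1 / 2 * (cos (v 0) * sin (v 1))) := by
      ring
    rw [e] at this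
    rw [sC_two]
    exact this
  have B2 : ∀ v : Plane, sin (v 0) ≠ 0 → sC (fT (prj v)).1 ≠ 0 := by
    intro v h
    have := sin_step_ne_zero (c := cos (v 1)) (abs_cos_le_one _) h
    rw [sC_one]
    exact this
  have pm : ∀ x : ℝ, sin x = 0 → cos x = 1 ∨ cos x = -1 := by
    intro x hx
    have := sin_sq_add_cos_sq x
    rw [hx] at this
    have h2 : (cos x - 1) * (cos x + 1) = 0 := by nlinarith
    rcases mul_eq_zero.1 h2 with h | h
    · left; linarith
    · right; linarith
  classical
  have bd : ∀ v : Plane, |cC (prj v).1 * cC (prj v).2| ≤ 1 := by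
    intro v
    rw [cC_prj_one, cC_prj_two, abs_mul]
    have := abs_cos_le_one (v 0); have := abs_cos_le_one (v 1)
    have := abs_nonneg (cos (v 0)); have := abs_nonneg (cos (v 1))
    nlinarith
  have B3 : ∀ v : Plane, sin (v 1) = 0 → sin (v 0) ≠ 0 →
      cC (fT (prj v)).1 * cC (fT (prj v)).2 < cC (prj v).1 * cC (prj v).2 := by
    intro v h1 h0
    have := cos_step_lt (pm _ h1) h0
    rw [cC_one, cC_two, cC_prj_one, cC_prj_two, h1]
    simp only [mul_zero, neg_zero, add_zero]
    linarith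
  have B4 : ∀ v : Plane, sin (v 0) = 0 → sin (v 1) ≠ 0 →
      -(cC (fT (prj v)).1 * cC (fT (prj v)).2) < -(cC (prj v).1 * cC (prj v).2) := by
    intro v h0 h1
    have hs : -cos (v 0) = 1 ∨ -cos (v 0) = -1 := by
      rcases pm _ h0 with h | h
      · right; rw [h]
      · left; rw [h]; norm_num
    have := cos_step_lt hs h1
    have e : v 1 + 1 / 2 * (sin (v 1) * -cos (v 0)) = v 1 + -(1 / 2 * (cos (v 0) * sin (v 1))) := by
      ring
    rw [e] at this
    rw [cC_one, cC_two, cC_prj_one, cC_prj_two, h0]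
    simp only [zero_mul, mul_zero, add_zero]
    linarith
  have e2 := ae_eq_of_le hρ (g := fun p => if sC p.2 = 0 then cC p.1 * cC p.2 else 0)
    (Measurable.ite m2 (c3.mul c4).measurable measurable_const)
    (by
      intro p
      obtain ⟨v, rfl⟩ := prj_surjective p
      show |if sC (prj v).2 = 0 then cC (prj v).1 * cC (prj v).2 else 0| ≤ 1
      split_ifs with h
      · exact bd v
      · simp)
    (by
      intro p
      obtain ⟨v, rfl⟩ := prj_surjective p
      show (if sC (fT (prj v)).2 = 0 then cC (fT (prj v)).1 * cC (fT (prj v)).2 else 0) ≤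
        if sC (prj v).2 = 0 then cC (prj v).1 * cC (prj v).2 else 0
      by_cases h1 : sin (v 1) = 0
      · rw [if_pos (A3 v h1), if_pos ((sC_prj_two v).trans h1)]
        by_cases h0 : sin (v 0) = 0
        · rw [cC_one, cC_two, cC_prj_one, cC_prj_two, h0, h1]
          simp
        · exact (B3 v h1 h0).le
      · rw [if_neg (B1 v h1), if_neg (by rw [sC_prj_two]; exact h1)])
  have e3 := ae_eq_of_le hρ (g := fun p => if sC p.1 = 0 then -(cC p.1 * cC p.2) else 0)
    (Measurable.ite m1 (c3.mul c4).neg.measurable measurable_const)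
    (by
      intro p
      obtain ⟨v, rfl⟩ := prj_surjective p
      show |if sC (prj v).1 = 0 then -(cC (prj v).1 * cC (prj v).2) else 0| ≤ 1
      split_ifs with h
      · rw [abs_neg]; exact bd v
      · simp)
    (by
      intro p
      obtain ⟨v, rfl⟩ := prj_surjective p
      show (if sC (fT (prj v)).1 = 0 then -(cC (fT (prj v)).1 * cC (fT (prj v)).2) else 0) ≤
        if sC (prj v).1 = 0 then -(cC (prj v).1 * cC (prj v).2) else 0
      by_cases h0 : sin (v 0) = 0
      · rw [if_pos (A2 v h0), if_pos ((sC_prj_one v).trans h0)]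
        by_cases h1 : sin (v 1) = 0
        · rw [cC_one, cC_two, cC_prj_one, cC_prj_two, h0, h1]
          simp
        · exact (B4 v h0 h1).le
      · rw [if_neg (B2 v h0), if_neg (by rw [sC_prj_one]; exact h0)])
  filter_upwards [e1, e2, e3] with p h1 h2 h3
  obtain ⟨v, rfl⟩ := prj_surjective p
  have g0 : sC (prj v).1 = sin (v 0) := sC_coe _
  have g1 : sC (prj v).2 = sin (v 1) := sC_coe _
  have k0 : cC (prj v).1 = cos (v 0) := cC_coe _
  have k1 : cC (prj v).2 = cos (v 1) := cC_coe _
  rw [g0, g1, k0, k1]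
  by_cases s0 : sin (v 0) = 0 <;> by_cases s1 : sin (v 1) = 0
  · left; exact ⟨s0, s1⟩
  · exfalso
    rw [if_pos (A2 v s0), if_pos (g0.trans s0)] at h3
    exact (B4 v s0 s1).ne h3
  · exfalso
    rw [if_pos (A3 v s1), if_pos (g1.trans s1)] at h2
    exact (B3 v s1 s0).ne h2
  · right
    by_contra hcon
    have : cos (v 0) ≠ 0 ∨ cos (v 1) ≠ 0 := by
      by_contra h
      push Not at h
      exact hcon h
    exact (A1 v s0 s1 this).ne h1

end Q68.EE
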